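import Mathlib

/-! Possibly degenerate star representations and their matrix amplifications. -/

open scoped InnerProductSpace

namespace Pool.Agent.MP_890ef7_an

section rep
variable {A : Type*} [Ring A] [StarRing A] {K : Type*} [NormedAddCommGroup K]
  [InnerProductSpace ℂ K]

/-- a possibly degenerate left action. -/
structure IsRep (L : A → K →L[ℂ] K) : Prop where
  mul : ∀ x y η, L (x * y) η = L x (L y η)
  adj : ∀ x η θ, ⟪L x η, θ⟫_ℂ = ⟪η, L (star x) θ⟫_ℂ

/-- a possibly degenerate right action. -/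
structure IsAnti (R : A → K →L[ℂ] K) : Prop where
  mul : ∀ x y η, R (x * y) η = R y (R x η)
  adj : ∀ x η θ, ⟪R x η, θ⟫_ℂ = ⟪η, R (star x) θ⟫_ℂ

theorem norm_le_of_proj {P : K →L[ℂ] K} (h : ∀ η, ⟪P η, P η⟫_ℂ = ⟪η, P η⟫_ℂ) (η : K) :
    ‖P η‖ ≤ ‖η‖ := by
  have h1 : ‖P η‖ ^ 2 ≤ ‖η‖ * ‖P η‖ := by
    rw [← inner_self_eq_norm_sq (𝕜 := ℂ), h]
    exact (RCLike.re_le_norm _).trans (norm_inner_le_norm _ _)
  rcases (norm_nonneg (P η)).eq_or_lt with h0 | h0
  · rw [← h0]; exact norm_nonneg _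
  · nlinarith

theorem IsRep.norm_proj_le {L : A → K →L[ℂ] K} (h : IsRep L) {p : A} (hp : star p * p = p)
    (η : K) : ‖L p η‖ ≤ ‖η‖ :=
  norm_le_of_proj (fun η => by rw [h.adj, ← h.mul, hp]) η

theorem IsAnti.norm_proj_le {R : A → K →L[ℂ] K} (h : IsAnti R) {p : A} (hp : p * star p = p)
    (η : K) : ‖R p η‖ ≤ ‖η‖ :=
  norm_le_of_proj (fun η => by rw [h.adj, ← h.mul, hp]) η

theorem IsRep.norm_eq {L : A → K →L[ℂ] K} (h : IsRep L) {u : A} (hu : star u * u = 1) (η : K) :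
    ‖L u η‖ = ‖L 1 η‖ := by
  rw [norm_eq_sqrt_re_inner (𝕜 := ℂ), norm_eq_sqrt_re_inner (𝕜 := ℂ), h.adj, h.adj, ← h.mul,
    ← h.mul, hu, star_one, one_mul]

theorem IsAnti.norm_eq {R : A → K →L[ℂ] K} (h : IsAnti R) {u : A} (hu : u * star u = 1) (η : K) :
    ‖R u η‖ = ‖R 1 η‖ := by
  rw [norm_eq_sqrt_re_inner (𝕜 := ℂ), norm_eq_sqrt_re_inner (𝕜 := ℂ), h.adj, h.adj, ← h.mul,
    ← h.mul, hu, star_one, one_mul]

theorem IsRep.norm_le {L : A → K →L[ℂ] K} (h : IsRep L) {u : A} (hu : star u * u = 1) (η : K) :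
    ‖L u η‖ ≤ ‖η‖ := by
  rw [h.norm_eq hu]; exact h.norm_proj_le (by simp) η

theorem IsAnti.norm_le {R : A → K →L[ℂ] K} (h : IsAnti R) {u : A} (hu : u * star u = 1) (η : K) :
    ‖R u η‖ ≤ ‖η‖ := by
  rw [h.norm_eq hu]; exact h.norm_proj_le (by simp) η

/-- The two by two trick: if `L n α ≈ R n β` for `n = X, Z, X Z` then `α ≈ β`. -/
theorem chain_lemma {L R : A → K →L[ℂ] K} (hL : IsRep L) (hR : IsAnti R) {c e : ℝ}
    (hc : ∀ u ∈ unitary A, ∀ v ∈ unitary A, ∀ η, ‖L u (R v η) - R v (L u η)‖ ≤ c * ‖η‖)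
    {X Z : A} (hX : X ∈ unitary A) (hZ : Z ∈ unitary A) (hXX : X * X = 1) (hZZ : Z * Z = 1)
    {α β : K} (hα : L 1 α = α) (hβ : R 1 β = β) (h1 : ‖L X α - R X β‖ ≤ e)
    (h2 : ‖L Z α - R Z β‖ ≤ e) (h3 : ‖L (X * Z) α - R (X * Z) β‖ ≤ e) :
    ‖α - β‖ ≤ 3 * e + 3 * (c * ‖β‖) := by
  have lX := hL.norm_le hX.1
  have rX := hR.norm_le hX.2
  have rZ := hR.norm_le hZ.2
  have s1 : ‖L X (R Z β) - R Z (R X β)‖ ≤ 2 * e := by
    have : L X (R Z β) - R Z (R X β) = (L (X * Z) α - R (X * Z) β) - L X (L Z α - R Z β) := by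
      rw [hL.mul, hR.mul, map_sub]; abel
    rw [this]
    have := (norm_sub_le _ _).trans (add_le_add h3 ((lX _).trans h2))
    linarith
  have s2 : ‖R Z (L X β - R X β)‖ ≤ 2 * e + c * ‖β‖ := by
    have : R Z (L X β - R X β) =
        (L X (R Z β) - R Z (R X β)) - (L X (R Z β) - R Z (L X β)) := by rw [map_sub]; abel
    rw [this]
    exact (norm_sub_le _ _).trans (add_le_add s1 (hc X hX Z hZ β))
  have s3 : ‖R 1 (L X β) - R X β‖ ≤ 2 * e + c * ‖β‖ := by
    rw [hR.norm_eq hZ.2, map_sub, ← hR.mul X 1, mul_one] at s2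
    exact s2
  have s4 : ‖L X β - R X β‖ ≤ 2 * e + 2 * (c * ‖β‖) := by
    have h4 := hc X hX 1 (one_mem _) β
    rw [hβ] at h4
    have := (norm_sub_le_norm_sub_add_norm_sub (L X β) (R 1 (L X β)) (R X β)).trans
      (add_le_add h4 s3)
    linarith
  have e1 : α - β = L X (L X α - R X β) + (L X (R X β) - R X (L X β)) + R X (L X β - R X β) := by
    rw [map_sub, map_sub, ← hL.mul, ← hR.mul, hXX, hα, hβ]; abel
  rw [e1]
  have := (norm_add₃_le).trans (add_le_add (add_le_add ((lX _).trans h1) (hc X hX X hX β))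
    ((rX _).trans s4))
  linarith

end rep

section amp
variable {B : Type*} [Ring B] [StarRing B] [Algebra ℂ B] [StarModule ℂ B]
  {K : Type*} [NormedAddCommGroup K] [InnerProductSpace ℂ K]
  {n : Type*} [Fintype n] [DecidableEq n]

/-- square matrices of vectors with the Hilbert-Schmidt norm. -/
abbrev KM (n : Type*) (K : Type*) := PiLp 2 (fun _ : n × n => K)

/-- amplified left action. -/
noncomputable def Lm (L : B →ₗ[ℂ] K →L[ℂ] K) (X : Matrix n n B) : KM n K →L[ℂ] KM n K :=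
  (PiLp.continuousLinearEquiv 2 ℂ (fun _ : n × n => K)).symm.toContinuousLinearMap ∘L
    ContinuousLinearMap.pi fun ik => ∑ p, L (X ik.1 p) ∘L PiLp.proj 2 (fun _ : n × n => K) (p, ik.2)

/-- amplified right action. -/
noncomputable def Rm (R : B →ₗ[ℂ] K →L[ℂ] K) (X : Matrix n n B) : KM n K →L[ℂ] KM n K :=
  (PiLp.continuousLinearEquiv 2 ℂ (fun _ : n × n => K)).symm.toContinuousLinearMap ∘L
    ContinuousLinearMap.pi fun ik => ∑ q, R (X q ik.2) ∘L PiLp.proj 2 (fun _ : n × n => K) (ik.1, q)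

@[simp] theorem Lm_apply (L : B →ₗ[ℂ] K →L[ℂ] K) (X : Matrix n n B) (η : KM n K) (ik : n × n) :
    Lm L X η ik = ∑ p, L (X ik.1 p) (η (p, ik.2)) := by
  simp [Lm, ContinuousLinearMap.sum_apply]

@[simp] theorem Rm_apply (R : B →ₗ[ℂ] K →L[ℂ] K) (X : Matrix n n B) (η : KM n K) (ik : n × n) :
    Rm R X η ik = ∑ q, R (X q ik.2) (η (ik.1, q)) := by
  simp [Rm, ContinuousLinearMap.sum_apply]

theorem isRep_Lm {L : B →ₗ[ℂ] K →L[ℂ] K} (h : IsRep L) : IsRep (Lm (n := n) L) where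
  mul X Y η := by
    ext ik
    simp only [Lm_apply, Matrix.mul_apply, map_sum, ContinuousLinearMap.sum_apply, h.mul]
    exact Finset.sum_comm
  adj X η θ := by
    simp only [PiLp.inner_apply, Lm_apply, sum_inner, inner_sum, h.adj, Fintype.sum_prod_type,
      Matrix.star_apply]
    rw [Finset.sum_comm]
    conv_rhs => rw [Finset.sum_comm]
    exact Finset.sum_congr rfl fun k _ => Finset.sum_comm

theorem isAnti_Rm {R : B →ₗ[ℂ] K →L[ℂ] K} (h : IsAnti R) : IsAnti (Rm (n := n) R) where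
  mul X Y η := by
    ext ik
    simp only [Rm_apply, Matrix.mul_apply, map_sum, ContinuousLinearMap.sum_apply, h.mul]
    exact Finset.sum_comm
  adj X η θ := by
    simp only [PiLp.inner_apply, Rm_apply, sum_inner, inner_sum, h.adj, Fintype.sum_prod_type,
      Matrix.star_apply]
    exact Finset.sum_congr rfl fun k _ => Finset.sum_comm

theorem norm_KM_le (η : KM n K) {c : ℝ} (hc : 0 ≤ c) (h : ∀ ik, ‖η ik‖ ≤ c) :
    ‖η‖ ≤ Fintype.card n * c := by
  refine le_of_sq_le_sq ?_ (by positivity) |>.trans_eq rfl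
  rw [PiLp.norm_sq_eq_of_L2]
  calc ∑ ik, ‖η ik‖ ^ 2 ≤ ∑ _ik : n × n, c ^ 2 := Finset.sum_le_sum fun ik _ => by
        have := h ik; gcongr
    _ = _ := by simp; ring

/-- bilinear maps. -/
abbrev Bil (B K : Type*) [Ring B] [Algebra ℂ B] [AddCommGroup K] [Module ℂ K] :=
  B →ₗ[ℂ] B →ₗ[ℂ] K

/-- amplified bilinear map. -/
noncomputable def hat (a : Bil B K) : Bil (Matrix n n B) (KM n K) :=
  LinearMap.mk₂ ℂ (fun X Y => WithLp.toLp 2 fun ik : n × n => ∑ p, a (X ik.1 p) (Y p ik.2))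
    (fun X X' Y => by ext ik; simp [Finset.sum_add_distrib])
    (fun c X Y => by ext ik; simp [Finset.smul_sum])
    (fun X Y Y' => by ext ik; simp [Finset.sum_add_distrib])
    (fun c X Y => by ext ik; simp [Finset.smul_sum])

@[simp] theorem hat_apply (a : Bil B K) (X Y : Matrix n n B) (ik : n × n) :
    hat a X Y ik = ∑ p, a (X ik.1 p) (Y p ik.2) := rfl

theorem hat_sub (a b : Bil B K) (X Y : Matrix n n B) :
    hat (a - b) X Y = hat a X Y - hat b X Y := by
  ext ik; simp [Finset.sum_sub_distrib]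

theorem hat_add (a b : Bil B K) (X Y : Matrix n n B) :
    hat (a + b) X Y = hat a X Y + hat b X Y := by
  ext ik; simp [Finset.sum_add_distrib]

theorem hat_smul (c : ℂ) (a : Bil B K) (X Y : Matrix n n B) :
    hat (c • a) X Y = c • hat a X Y := by
  ext ik; simp [Finset.smul_sum]

theorem hat_sum {ι : Type*} (s : Finset ι) (a : ι → Bil B K) (X Y : Matrix n n B) :
    hat (∑ i ∈ s, a i) X Y = ∑ i ∈ s, hat (a i) X Y := by
  ext ik
  simp only [hat_apply, LinearMap.sum_apply, WithLp.ofLp_sum, Finset.sum_apply]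
  exact Finset.sum_comm

theorem hat_left {L : B →ₗ[ℂ] K →L[ℂ] K} {a : Bil B K} (h : ∀ z x y, a (z * x) y = L z (a x y))
    (Z X Y : Matrix n n B) : hat a (Z * X) Y = Lm L Z (hat a X Y) := by
  ext ik
  simp only [hat_apply, Lm_apply, Matrix.mul_apply, map_sum, LinearMap.sum_apply, h]
  exact Finset.sum_comm

theorem hat_right {R : B →ₗ[ℂ] K →L[ℂ] K} {a : Bil B K} (h : ∀ x y z, a x (y * z) = R z (a x y))
    (X Y Z : Matrix n n B) : hat a X (Y * Z) = Rm R Z (hat a X Y) := by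
  ext ik
  simp only [hat_apply, Rm_apply, Matrix.mul_apply, map_sum, h]
  exact Finset.sum_comm

/-- constant matrices. -/
noncomputable def cst (B : Type*) [Ring B] [Algebra ℂ B] : Matrix n n ℂ →ₐ[ℂ] Matrix n n B :=
  (Algebra.ofId ℂ B).mapMatrix

theorem cst_apply (c : Matrix n n ℂ) (i j : n) : cst B c i j = c i j • (1 : B) := by
  simp [cst, Algebra.ofId_apply, Algebra.algebraMap_eq_smul_one]

theorem star_cst (c : Matrix n n ℂ) : star (cst B c) = cst B (star c) := by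
  ext i j; simp [cst_apply, Matrix.star_apply]

theorem cst_mem_unitary {c : Matrix n n ℂ} (hc : c ∈ unitary (Matrix n n ℂ)) :
    cst B c ∈ unitary (Matrix n n B) := by
  rw [Unitary.mem_iff, star_cst, ← map_mul, ← map_mul, hc.1, hc.2, map_one]
  exact ⟨rfl, rfl⟩

theorem hat_cst (a : Bil B K) (X Y : Matrix n n B) (c : Matrix n n ℂ) :
    hat a (X * cst B c) Y = hat a X (cst B c * Y) := by
  ext ik
  simp only [hat_apply, Matrix.mul_apply, cst_apply, map_sum, LinearMap.sum_apply, mul_smul_comm,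
    mul_one, smul_mul_assoc, one_mul, map_smul, LinearMap.smul_apply]
  exact Finset.sum_comm

/-- scalar matrices. -/
def scal (x : B) : Matrix n n B := Matrix.diagonal fun _ => x

theorem scal_mul (x y : B) : (scal (x * y) : Matrix n n B) = scal x * scal y := by
  simp [scal]

theorem scal_one : (scal 1 : Matrix n n B) = 1 := by simp [scal]

theorem star_scal (x : B) : star (scal x : Matrix n n B) = scal (star x) := by
  simp [scal, Matrix.star_eq_conjTranspose, Matrix.diagonal_conjTranspose]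

theorem scal_smul (c : ℂ) (x : B) : (scal (c • x) : Matrix n n B) = c • scal x := by
  simp [scal, ← Matrix.diagonal_smul]

theorem scal_add (x y : B) : (scal (x + y) : Matrix n n B) = scal x + scal y := by
  simp [scal]

theorem scal_zero : (scal 0 : Matrix n n B) = 0 := by simp [scal]

theorem scal_cst (x : B) (c : Matrix n n ℂ) : scal x * cst B c = cst B c * scal x := by
  ext i j; simp [scal, cst_apply]

theorem scal_mem_unitary {u : B} (hu : u ∈ unitary B) : (scal u : Matrix n n B) ∈ unitary _ := by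
  rw [Unitary.mem_iff, star_scal, ← scal_mul, ← scal_mul, hu.1, hu.2, scal_one]
  exact ⟨rfl, rfl⟩

/-- translate a bilinear map. -/
noncomputable def tr (a : Bil B K) (x y : B) : Bil B K :=
  a.compl₁₂ (LinearMap.mulRight ℂ x) (LinearMap.mulLeft ℂ y)

@[simp] theorem tr_apply (a : Bil B K) (x y p q : B) : tr a x y p q = a (p * x) (y * q) := rfl

theorem hat_tr (a : Bil B K) (x y : B) (X Y : Matrix n n B) :
    hat (tr a x y) X Y = hat a (X * scal x) (scal y * Y) := by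
  ext ik; simp [scal]

/-- the diagonal matrix with a fixed vector. -/
noncomputable def dv (n : Type*) [DecidableEq n] : K →ₗ[ℂ] KM n K where
  toFun η := WithLp.toLp 2 fun ik : n × n => if ik.1 = ik.2 then η else 0
  map_add' x y := by ext ik; by_cases h : ik.1 = ik.2 <;> simp [h]
  map_smul' c x := by ext ik; by_cases h : ik.1 = ik.2 <;> simp [h]

@[simp] theorem dv_apply (η : K) (ik : n × n) : dv n η ik = if ik.1 = ik.2 then η else 0 := rfl

theorem norm_dv_sq (η : K) : ‖dv n η‖ ^ 2 = Fintype.card n * ‖η‖ ^ 2 := by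
  rw [PiLp.norm_sq_eq_of_L2]
  simp [Fintype.sum_prod_type, apply_ite, ite_pow]

theorem Lm_scal_dv (L : B →ₗ[ℂ] K →L[ℂ] K) (x : B) (η : K) :
    Lm L (scal x) (dv n η) = dv n (L x η) := by
  ext ik
  simp only [Lm_apply, dv_apply, scal, Matrix.diagonal_apply]
  rw [Finset.sum_eq_single ik.1]
  · by_cases h : ik.1 = ik.2 <;> simp [h]
  · intro b _ hb; simp [hb.symm]
  · simp

theorem Rm_scal_dv (R : B →ₗ[ℂ] K →L[ℂ] K) (x : B) (η : K) :
    Rm R (scal x) (dv n η) = dv n (R x η) := by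
  ext ik
  simp only [Rm_apply, dv_apply, scal, Matrix.diagonal_apply]
  rw [Finset.sum_eq_single ik.2]
  · by_cases h : ik.1 = ik.2 <;> simp [h]
  · intro b _ hb; simp [hb]
  · simp

/-- the bilinear map `(x, y) ↦ L x (R y η)`. -/
noncomputable def lr (L R : B →ₗ[ℂ] K →L[ℂ] K) (η : K) : Bil B K :=
  LinearMap.mk₂ ℂ (fun x y => L x (R y η)) (by simp) (by simp) (by simp) (by simp)

/-- the bilinear map `(x, y) ↦ R y (L x η)`. -/
noncomputable def rl (L R : B →ₗ[ℂ] K →L[ℂ] K) (η : K) : Bil B K :=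
  LinearMap.mk₂ ℂ (fun x y => R y (L x η)) (by simp) (by simp) (by simp) (by simp)

@[simp] theorem lr_apply (L R : B →ₗ[ℂ] K →L[ℂ] K) (η : K) (x y : B) :
    lr L R η x y = L x (R y η) := rfl

@[simp] theorem rl_apply (L R : B →ₗ[ℂ] K →L[ℂ] K) (η : K) (x y : B) :
    rl L R η x y = R y (L x η) := rfl

theorem hat_lr (L R : B →ₗ[ℂ] K →L[ℂ] K) (η : K) (X Y : Matrix n n B) :
    hat (lr L R η) X Y = Lm L X (Rm R Y (dv n η)) := by
  ext ik
  simp only [hat_apply, lr_apply, Lm_apply, Rm_apply, dv_apply]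
  refine Finset.sum_congr rfl fun p _ => ?_
  congr 1
  rw [Finset.sum_eq_single p]
  · simp
  · intro b _ hb; simp [hb.symm]
  · simp

end amp

section norms
variable {B : Type*} [NormedRing B] [StarRing B] [NormedAlgebra ℂ B] [StarModule ℂ B]
  {K : Type*} [NormedAddCommGroup K] [InnerProductSpace ℂ K]
  {n : Type*} [Fintype n] [DecidableEq n]

theorem norm_hat_le (a : Bil B K) {c : ℝ} (hc : 0 ≤ c) (h : ∀ x y, ‖a x y‖ ≤ c * ‖x‖ * ‖y‖)
    {X Y : Matrix n n B} (hX : ∀ i j, ‖X i j‖ ≤ 1) (hY : ∀ i j, ‖Y i j‖ ≤ 1) :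
    ‖hat a X Y‖ ≤ Fintype.card n * (Fintype.card n * c) := by
  refine norm_KM_le _ (by positivity) fun ik => ?_
  rw [hat_apply]
  calc _ ≤ ∑ p, ‖a (X ik.1 p) (Y p ik.2)‖ := norm_sum_le _ _
    _ ≤ ∑ _p : n, c := Finset.sum_le_sum fun p _ => (h _ _).trans (by
        have h1 := hX ik.1 p
        have h2 := hY p ik.2
        calc c * ‖X ik.1 p‖ * ‖Y p ik.2‖ ≤ c * 1 * 1 := by gcongr
          _ = c := by ring)
    _ = _ := by simp

theorem norm_comm_le {L R : B →ₗ[ℂ] K →L[ℂ] K} {γ : ℝ} (hγ : 0 ≤ γ)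
    (h : ∀ x y η, ‖L x (R y η) - R y (L x η)‖ ≤ γ * ‖x‖ * ‖y‖ * ‖η‖)
    {X Y : Matrix n n B} (hX : ∀ i j, ‖X i j‖ ≤ 1) (hY : ∀ i j, ‖Y i j‖ ≤ 1) (η : KM n K) :
    ‖Lm L X (Rm R Y η) - Rm R Y (Lm L X η)‖ ≤ (Fintype.card n) ^ 3 * γ * ‖η‖ := by
  refine (norm_KM_le _ (c := (Fintype.card n) ^ 2 * γ * ‖η‖) (by positivity) fun ik => ?_).trans_eq
    (by ring)
  have : (Lm L X (Rm R Y η) - Rm R Y (Lm L X η)) ik = ∑ p, ∑ q,
      (L (X ik.1 p) (R (Y q ik.2) (η (p, q))) - R (Y q ik.2) (L (X ik.1 p) (η (p, q)))) := by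
    simp only [PiLp.sub_apply, Lm_apply, Rm_apply, map_sum, Finset.sum_sub_distrib]
    congr 1
    exact Finset.sum_comm
  rw [this]
  calc _ ≤ ∑ p, ∑ q, ‖(L (X ik.1 p) (R (Y q ik.2) (η (p, q))) -
        R (Y q ik.2) (L (X ik.1 p) (η (p, q))))‖ :=
        (norm_sum_le _ _).trans (Finset.sum_le_sum fun p _ => norm_sum_le _ _)
    _ ≤ ∑ _p : n, ∑ _q : n, γ * ‖η‖ := Finset.sum_le_sum fun p _ => Finset.sum_le_sum fun q _ =>
        (h _ _ _).trans (by
          have h1 := hX ik.1 p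
          have h2 := hY q ik.2
          have h3 := PiLp.norm_apply_le η (p, q)
          calc γ * ‖X ik.1 p‖ * ‖Y q ik.2‖ * ‖η (p, q)‖ ≤ γ * 1 * 1 * ‖η‖ := by gcongr
            _ = _ := by ring)
    _ = _ := by simp; ring

end norms

end Pool.Agent.MP_890ef7_an
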