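import Mathlib

/-! Definitions: Kazhdan groups, Hilbert bimodules, Connes-Jones property (T), Kadison-Kastler
distance, algebras generated by projective representations. -/

open scoped InnerProductSpace
open Filter Topology

namespace Pool.Agent.MP_890ef7_an

universe u v w

/-- Every unitary representation of `Γ` on `E` with a unit vector moved by less than `κ` by all
elements of `S` has a nonzero invariant vector. -/
def KazhdanOn {Γ : Type u} [Group Γ] (S : Finset Γ) (κ : ℝ) (E : Type u) [NormedAddCommGroup E]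
    [InnerProductSpace ℂ E] [CompleteSpace E] : Prop :=
  ∀ ρ : Γ → E →L[ℂ] E, (∀ g, ρ g ∈ unitary (E →L[ℂ] E)) → (∀ g h, ρ (g * h) = ρ g * ρ h) →
    ∀ ξ : E, ‖ξ‖ = 1 → (∀ s ∈ S, ‖ρ s ξ - ξ‖ < κ) → ∃ η : E, η ≠ 0 ∧ ∀ g, ρ g η = η

/-- Kazhdan's property (T) for a discrete group. -/
def KazhdanT (Γ : Type u) [Group Γ] : Prop :=
  ∃ (S : Finset Γ) (κ : ℝ), 0 < κ ∧
    ∀ (E : Type u) [NormedAddCommGroup E] [InnerProductSpace ℂ E] [CompleteSpace E],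
      KazhdanOn S κ E

variable {H : Type v} [NormedAddCommGroup H] [InnerProductSpace ℂ H] [CompleteSpace H]

/-- The restriction of `φ` to `N` is normal: it is continuous for the weak operator topologies on
the unit ball of `N`. -/
def IsNormalOn (N : VonNeumannAlgebra H) {K : Type w} [NormedAddCommGroup K]
    [InnerProductSpace ℂ K] (φ : (H →L[ℂ] H) → K →L[ℂ] K) : Prop :=
  ∀ (l : Filter (H →L[ℂ] H)), ∀ y ∈ N, (∀ᶠ z in l, z ∈ N ∧ ‖z‖ ≤ 1) →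
    (∀ a b : H, Tendsto (fun z : H →L[ℂ] H => ⟪a, z b⟫_ℂ) l (𝓝 ⟪a, y b⟫_ℂ)) →
    ∀ ξ η : K, Tendsto (fun z => ⟪η, φ z ξ⟫_ℂ) l (𝓝 ⟪η, φ y ξ⟫_ℂ)

/-- The restriction of `φ` to `N` is linear, unital, star preserving and normal. -/
def IsStarLinearOn (N : VonNeumannAlgebra H) {K : Type w} [NormedAddCommGroup K]
    [InnerProductSpace ℂ K] [CompleteSpace K] (φ : (H →L[ℂ] H) → K →L[ℂ] K) : Prop :=
  (∀ x ∈ N, ∀ y ∈ N, φ (x + y) = φ x + φ y) ∧ (∀ c : ℂ, ∀ x ∈ N, φ (c • x) = c • φ x) ∧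
    φ 1 = 1 ∧ (∀ x ∈ N, φ (star x) = star (φ x)) ∧ IsNormalOn N φ

/-- The restrictions of `L` and `R` to `N` are commuting normal left and right actions on `K`. -/
def IsBimodule (N : VonNeumannAlgebra H) {K : Type w} [NormedAddCommGroup K]
    [InnerProductSpace ℂ K] [CompleteSpace K] (L R : (H →L[ℂ] H) → K →L[ℂ] K) : Prop :=
  IsStarLinearOn N L ∧ IsStarLinearOn N R ∧ ∀ x ∈ N, ∀ y ∈ N,
    L (x * y) = L x * L y ∧ R (x * y) = R y * R x ∧ L x * R y = R y * L x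

/-- In every `N`-`N` bimodule structure on `K`, unit vectors that are `δ`-central for `F` are
within `ε` of a central vector. -/
def RigidOn (N : VonNeumannAlgebra H) (F : Finset (H →L[ℂ] H)) (δ ε : ℝ) (K : Type w)
    [NormedAddCommGroup K] [InnerProductSpace ℂ K] [CompleteSpace K] : Prop :=
  ∀ L R : (H →L[ℂ] H) → K →L[ℂ] K, IsBimodule N L R →
    ∀ ξ : K, ‖ξ‖ = 1 → (∀ x ∈ F, ‖L x ξ - R x ξ‖ < δ) →
      ∃ η : K, (∀ x ∈ N, L x η = R x η) ∧ ‖η - ξ‖ < ε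

/-- Property (T) of Connes and Jones. -/
def HasT (N : VonNeumannAlgebra H) : Prop :=
  ∀ ε : ℝ, 0 < ε → ∃ (F : Finset (H →L[ℂ] H)) (δ : ℝ), (∀ x ∈ F, x ∈ N) ∧ 0 < δ ∧
    ∀ (K : Type w) [NormedAddCommGroup K] [InnerProductSpace ℂ K] [CompleteSpace K],
      RigidOn N F δ ε K

/-- The Kadison-Kastler distance. -/
noncomputable def kkDist (M N : VonNeumannAlgebra H) : ℝ :=
  sInf {γ : ℝ | 0 < γ ∧ (∀ x ∈ M, ‖x‖ ≤ 1 → ∃ y ∈ N, ‖y‖ ≤ 1 ∧ ‖x - y‖ < γ) ∧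
    (∀ y ∈ N, ‖y‖ ≤ 1 → ∃ x ∈ M, ‖x‖ ≤ 1 ∧ ‖y - x‖ < γ)}

/-- `M` is the bicommutant of the image of a projective unitary representation of `Γ`. -/
def ProjGenerated (Γ : Type u) [Group Γ] (M : VonNeumannAlgebra H) : Prop :=
  ∃ π : Γ → H →L[ℂ] H, (∀ g, π g ∈ unitary (H →L[ℂ] H)) ∧
    (∀ g h, ∃ c : ℂ, π (g * h) = c • (π g * π h)) ∧
    (M : Set (H →L[ℂ] H)) = Set.centralizer (Set.centralizer (Set.range π))

end Pool.Agent.MP_890ef7_an
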