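import Mathlib
import Pool.Agent.MP_890ef7_an.Main
import Pool.Agent.MP_890ef7_an.H1Defs

/-! Algebras generated by projective representations of Kazhdan groups are rigidly generated. -/

open scoped InnerProductSpace
open Filter Topology

namespace Pool.Agent.MP_890ef7_an

universe u v

theorem exists_affine_fixed {G K : Type*} [Group G] [NormedAddCommGroup K] [InnerProductSpace ℂ K]
    [CompleteSpace K] (T : G → K →L[ℂ] K) (hn : ∀ g x, ‖T g x‖ = ‖x‖) (c : G → K)
    (hc : ∀ g h, c (g * h) = T g (c h) + c g) {C : ℝ} (hC : ∀ g, ‖c g‖ ^ 2 ≤ C) :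
    ∃ η, ∀ g, T g η + c g = η := by
  let S : Set ℝ := {r | ∃ x, ∀ g, ‖x - c g‖ ^ 2 ≤ r}
  have hne : S.Nonempty := ⟨C, 0, fun g => by simpa using hC g⟩
  have hbd : BddBelow S := ⟨0, fun r ⟨x, hx⟩ => (sq_nonneg _).trans (hx 1)⟩
  have hex : ∀ n : ℕ, ∃ x, ∀ g, ‖x - c g‖ ^ 2 ≤ sInf S + 1 / ((n : ℝ) + 1) := fun n => by
    obtain ⟨r, ⟨x, hx⟩, hr⟩ := exists_lt_of_csInf_lt hne
      (lt_add_of_pos_right (sInf S) (Nat.one_div_pos_of_nat (α := ℝ) (n := n)))
    exact ⟨x, fun g => (hx g).trans hr.le⟩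
  have hdiam : ∀ (x y : K) (a b : ℝ), (∀ g, ‖x - c g‖ ^ 2 ≤ sInf S + a) →
      (∀ g, ‖y - c g‖ ^ 2 ≤ sInf S + b) → ‖x - y‖ ^ 2 ≤ 2 * a + 2 * b := fun x y a b hx hy => by
    have h1 : sInf S ≤ sInf S + (a + b) / 2 - ‖x - y‖ ^ 2 / 4 := by
      refine csInf_le hbd ⟨(2⁻¹ : ℂ) • (x + y), fun g => ?_⟩
      have h2 := parallelogram_law_with_norm ℂ (x - c g) (y - c g)
      have h3 : (2⁻¹ : ℂ) • (x + y) - c g = (2⁻¹ : ℂ) • (x - c g + (y - c g)) := by module
      rw [sub_sub_sub_cancel_right] at h2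
      rw [h3, norm_smul, norm_inv, Complex.norm_ofNat]
      have := hx g
      have := hy g
      nlinarith
    linarith
  choose x hx using hex
  have hz : Tendsto (fun n : ℕ => √(4 * (1 / ((n : ℝ) + 1)))) atTop (𝓝 0) := by
    simpa using (tendsto_one_div_add_atTop_nhds_zero_nat.const_mul (4 : ℝ)).sqrt
  obtain ⟨η, hη⟩ := cauchySeq_tendsto_of_complete (u := x)
    (cauchySeq_of_le_tendsto_0' _ (fun n m hnm => by
      rw [dist_eq_norm]
      refine Real.le_sqrt_of_sq_le ((hdiam _ _ _ _ (hx n) (hx m)).trans ?_)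
      have : 1 / ((m : ℝ) + 1) ≤ 1 / ((n : ℝ) + 1) := by gcongr
      linarith) hz)
  refine ⟨η, fun g => ?_⟩
  have h1 : Tendsto (fun n => T g (x n) + c g - x n) atTop (𝓝 (T g η + c g - η)) :=
    ((((T g).continuous.tendsto _).comp hη).add_const _).sub hη
  refine sub_eq_zero.1 (tendsto_nhds_unique h1 (squeeze_zero_norm (fun n => ?_) hz))
  refine Real.le_sqrt_of_sq_le ((hdiam _ _ (1 / ((n : ℝ) + 1)) _ (fun h => ?_) (hx n)).trans_eq
    (by ring))
  have e : T g (x n) + c g - c h = T g (x n - c (g⁻¹ * h)) := by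
    conv_lhs => rw [← mul_inv_cancel_left g h, hc]
    rw [map_sub]; abel
  rw [e, hn]
  exact hx n _

theorem derInner_of_proj {Γ : Type u} [Group Γ] (hΓ : KazhdanT Γ) {B : Type v} [Ring B]
    [StarRing B] [Algebra ℂ B] [StarModule ℂ B] (π : Γ → unitary B)
    (hπ : ∀ g h, PE (π (g * h)) (π g * π h)) (A : StarSubalgebra ℂ B) (h1 : ∀ g, (π g : B) ∈ A)
    (h2 : ∀ x ∈ A, x ∈ Submodule.span ℂ (Set.range fun g => (π g : B))) : DerInner A := by
  intro K _ _ _ L R hc δ hδ
  obtain ⟨S, κ, hκ, hS⟩ := hΓ.exists_pair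
  have hLi : ∀ (p : unitary B) x, ‖L p x‖ = ‖x‖ := fun p x =>
    ContinuousLinearMap.norm_map_of_mem_unitary (Unitary.map_mem L p.2) x
  have hRi : ∀ (p : unitary B) x, ‖R (MulOpposite.op (star (p : B))) x‖ = ‖x‖ := fun p x =>
    ContinuousLinearMap.norm_map_of_mem_unitary (Unitary.map_mem R (by
      rw [Unitary.mem_iff, ← MulOpposite.op_star, star_star, ← MulOpposite.op_mul,
        ← MulOpposite.op_mul, p.2.1, p.2.2]
      exact ⟨rfl, rfl⟩)) x
  have hcm : ∀ x y η, L x (R y η) = R y (L x η) := fun x y η =>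
    congrArg (fun S : K →L[ℂ] K => S η) (hc x y)
  have hRR : ∀ x y η, R (MulOpposite.op y) (R (MulOpposite.op x) η) =
      R (MulOpposite.op (x * y)) η := fun x y η => by rw [MulOpposite.op_mul, map_mul]; rfl
  have hR1 : ∀ η, R (MulOpposite.op 1) η = η := fun η => by rw [MulOpposite.op_one, map_one]; rfl
  let T : Γ → K →L[ℂ] K := fun g => L (π g) ∘L R (MulOpposite.op (star (π g : B)))
  let c : Γ → K := fun g => R (MulOpposite.op (star (π g : B))) (δ ⟨π g, h1 g⟩)
  have hT : ∀ g x, ‖T g x‖ = ‖x‖ := fun g x => by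
    simp only [T, ContinuousLinearMap.comp_apply, hLi, hRi]
  have hcc : ∀ g h, c (g * h) = T g (c h) + c g := fun g h => by
    obtain ⟨z, hz, e⟩ := hπ g h
    have e1 : (⟨π (g * h), h1 _⟩ : A) = z • (⟨π g, h1 g⟩ * ⟨π h, h1 h⟩) := Subtype.ext e
    have hz1 : z * star z = 1 := by rw [Complex.star_def, Complex.mul_conj', hz]; simp
    simp only [c, T, ContinuousLinearMap.comp_apply]
    rw [e1, e, map_smul, hδ, star_smul, MulOpposite.op_smul, map_smul, map_smul, smul_apply,
      smul_smul, hz1, one_smul, Submonoid.coe_mul, star_mul, ← hRR, map_add, map_add, hRR (π h),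
      (π h).2.2, hR1, ← hcm, ← hcm]
  have hc1 : c 1 = 0 := by
    have h3 := hcc 1 1
    rw [one_mul, eq_comm, add_eq_right] at h3
    rw [← norm_eq_zero, ← hT 1, h3, norm_zero]
  obtain ⟨C, hC⟩ := hS.bounded hκ c hc1 fun p q => by rw [hcc, add_sub_cancel_right, hT]
  obtain ⟨η, hη⟩ := exists_affine_fixed T hT c hcc hC
  refine ⟨-η, fun x => ?_⟩
  obtain ⟨x, hx⟩ := x
  have hx' := h2 x hx
  have hsub : ∀ z ∈ Submodule.span ℂ (Set.range fun g => (π g : B)), z ∈ A := fun z hz =>
    (Submodule.span_le (p := A.toSubalgebra.toSubmodule)).2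
      (by rintro _ ⟨g, rfl⟩; exact h1 g) hz
  induction hx' using Submodule.span_induction with
  | mem z hz =>
    obtain ⟨g, rfl⟩ := hz
    have h3 := congrArg (R (MulOpposite.op (π g : B))) (hη g)
    simp only [T, c, ContinuousLinearMap.comp_apply, map_add, ← hcm, hRR, (π g).2.1, hR1] at h3
    simp only [map_neg, ← h3]
    abel
  | zero =>
    have : (⟨0, hx⟩ : A) = 0 := rfl
    simp [this]
  | add y z hy hz k1 k2 =>
    have : (⟨y + z, hx⟩ : A) = ⟨y, hsub y hy⟩ + ⟨z, hsub z hz⟩ := rfl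
    rw [this, map_add, k1, k2]
    simp only [AddMemClass.mk_add_mk, map_add, MulOpposite.op_add, add_apply]
    abel
  | smul a y hy k1 =>
    have : (⟨a • y, hx⟩ : A) = a • ⟨y, hsub y hy⟩ := rfl
    rw [this, map_smul, k1]
    simp only [SetLike.mk_smul_mk, map_smul, MulOpposite.op_smul, smul_apply, smul_sub]

theorem rigidlyGenerated_of_proj {Γ : Type u} [Group Γ] (hΓ : KazhdanT Γ) {H : Type v}
    [NormedAddCommGroup H] [InnerProductSpace ℂ H] [CompleteSpace H] {M : VonNeumannAlgebra H}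
    (hM : ProjGenerated Γ M) : RigidlyGenerated M := by
  classical
  obtain ⟨π, hπ, hproj, hM⟩ := hM
  obtain ⟨S, κ, hκ, hS⟩ := hΓ.exists_pair
  have hπM : ∀ g, π g ∈ M := fun g => by
    rw [← SetLike.mem_coe, hM]; exact Set.subset_centralizer_centralizer ⟨g, rfl⟩
  let π' : Γ → unitary M.toStarSubalgebra := fun g => ⟨⟨π g, hπM g⟩,
    Subtype.ext (hπ g).1, Subtype.ext (hπ g).2⟩
  have hπ' : ∀ g h, PE (π' (g * h)) (π' g * π' h) := fun g h => by
    obtain ⟨c, hc⟩ := hproj g h
    obtain ⟨c, hc1, hc⟩ := exists_unimod (hπ _) (mul_mem (hπ g) (hπ h)) hc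
    exact ⟨c, hc1, Subtype.ext hc⟩
  let F : Finset M.toStarSubalgebra := S.image fun g => (π' g : M.toStarSubalgebra)
  let A := StarAlgebra.adjoin ℂ (F : Set M.toStarSubalgebra)
  have hin : ∀ (g : Γ) (x : unitary M.toStarSubalgebra), PE (π' g) x →
      (x : M.toStarSubalgebra) ∈ Submodule.span ℂ
        (Set.range fun g => (π' g : M.toStarSubalgebra)) := fun g x h => by
    obtain ⟨c, -, hc⟩ := h.symm
    rw [hc]
    exact Submodule.smul_mem _ c (Submodule.subset_span ⟨g, rfl⟩)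
  have hin' : ∀ (g : Γ) (x : unitary M.toStarSubalgebra), PE (π' g) x →
      (x : M.toStarSubalgebra) ∈ A → (π' g : M.toStarSubalgebra) ∈ A := fun g x h hx => by
    obtain ⟨c, -, hc⟩ := h
    rw [hc]
    exact A.smul_mem hx c
  have h1 : ∀ g, (π' g : M.toStarSubalgebra) ∈ A := fun g => by
    let s : S ⊕ S → Γ := Sum.elim (fun a => a) fun a => (a : Γ)⁻¹
    obtain ⟨n, hn⟩ := hS.gen hκ s Sum.swap (by rintro (a | a) <;> simp [s])
      (fun a ha => ⟨.inl ⟨a, ha⟩, rfl⟩) g
    induction n generalizing g with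
    | zero =>
      obtain rfl : g = 1 := hn
      exact hin' 1 1 (PE_one hπ') (one_mem _)
    | succ n ih =>
      rcases hn with hn | ⟨h, i, hh, rfl⟩
      · exact ih g hn
      · refine hin' _ _ (hπ' _ _) (mul_mem (ih h hh) ?_)
        have hm : ∀ a : S, (π' a : M.toStarSubalgebra) ∈ A := fun a =>
          StarAlgebra.subset_adjoin ℂ _ (Finset.mem_coe.2 (Finset.mem_image_of_mem _ a.2))
        rcases i with a | a
        · exact hm a
        · exact hin' _ _ (PE_inv hπ' _) (star_mem (hm a))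
  have h2 : ∀ x ∈ A, x ∈ Submodule.span ℂ (Set.range fun g => (π' g : M.toStarSubalgebra)) := by
    intro x hx
    induction hx using StarAlgebra.adjoin_induction with
    | mem x hx =>
      obtain ⟨g, -, rfl⟩ := Finset.mem_image.1 hx
      exact Submodule.subset_span ⟨g, rfl⟩
    | algebraMap r =>
      rw [Algebra.algebraMap_eq_smul_one]
      exact Submodule.smul_mem _ _ (hin 1 1 (PE_one hπ'))
    | add x y _ _ h1 h2 => exact add_mem h1 h2
    | mul x y hx hy h1 h2 =>
      clear hx hy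
      induction h1, h2 using Submodule.span_induction₂ with
      | mem_mem x y hx hy =>
        obtain ⟨g, rfl⟩ := hx
        obtain ⟨h, rfl⟩ := hy
        exact hin _ _ (hπ' g h)
      | zero_left => simp
      | zero_right => simp
      | add_left x y z _ _ _ h1 h2 => rw [add_mul]; exact add_mem h1 h2
      | add_right x y z _ _ _ h1 h2 => rw [mul_add]; exact add_mem h1 h2
      | smul_left r x y _ _ h => rw [smul_mul_assoc]; exact Submodule.smul_mem _ _ h
      | smul_right r x y _ _ h => rw [mul_smul_comm]; exact Submodule.smul_mem _ _ h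
    | star x hx h1 =>
      clear hx
      induction h1 using Submodule.span_induction with
      | mem x hx =>
        obtain ⟨g, rfl⟩ := hx
        exact hin _ _ (PE_inv hπ' g)
      | zero => simp
      | add x y _ _ h1 h2 => rw [star_add]; exact add_mem h1 h2
      | smul r x _ h => rw [star_smul]; exact Submodule.smul_mem _ _ h
  refine RigidlyGenerated'.unbundled ⟨F, ?_, derInner_of_proj hΓ π' hπ' A h1 h2⟩
  · rw [hM]
    congr 1
    refine Set.Subset.antisymm (fun y hy => ?_)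
      (Set.centralizer_subset (by rintro _ ⟨g, rfl⟩; exact ⟨_, h1 g, rfl⟩))
    rintro _ ⟨x, hx, rfl⟩
    replace hx := h2 x hx
    induction hx using Submodule.span_induction with
    | mem x hx =>
      obtain ⟨g, rfl⟩ := hx
      exact hy _ ⟨g, rfl⟩
    | zero => simp
    | add x z _ _ k1 k2 => rw [AddMemClass.coe_add, add_mul, mul_add, k1, k2]
    | smul r x _ k => rw [SetLike.val_smul, smul_mul_assoc, mul_smul_comm, k]

end Pool.Agent.MP_890ef7_an
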