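import Mathlib
import Pool.Agent.MP_890ef7_an.Defs

/-! Definitions: derivations into Hilbert bimodules, rigidly generated and commensurable
von Neumann algebras. -/

namespace Pool.Agent.MP_890ef7_an

universe v

variable {H H' : Type v} [NormedAddCommGroup H] [InnerProductSpace ℂ H] [CompleteSpace H]
  [NormedAddCommGroup H'] [InnerProductSpace ℂ H'] [CompleteSpace H']

/-- The restriction of `φ` to `P` is linear, unital and star preserving. -/
def IsStarOn (P : VonNeumannAlgebra H) {K : Type v} [NormedAddCommGroup K]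
    [InnerProductSpace ℂ K] [CompleteSpace K] (φ : (H →L[ℂ] H) → K →L[ℂ] K) : Prop :=
  (∀ x ∈ P, ∀ y ∈ P, φ (x + y) = φ x + φ y) ∧ (∀ c : ℂ, ∀ x ∈ P, φ (c • x) = c • φ x) ∧
    φ 1 = 1 ∧ ∀ x ∈ P, φ (star x) = star (φ x)

/-- The restrictions of `L` and `R` to `P` are commuting left and right actions on `K`. -/
def IsAlgBimodule (P : VonNeumannAlgebra H) {K : Type v} [NormedAddCommGroup K]
    [InnerProductSpace ℂ K] [CompleteSpace K] (L R : (H →L[ℂ] H) → K →L[ℂ] K) : Prop :=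
  IsStarOn P L ∧ IsStarOn P R ∧ ∀ x ∈ P, ∀ y ∈ P,
    L (x * y) = L x * L y ∧ R (x * y) = R y * R x ∧ L x * R y = R y * L x

/-- The restriction of `δ` to `A` is linear and satisfies the Leibniz rule. -/
def IsDerOn (A : Set (H →L[ℂ] H)) {K : Type v} [NormedAddCommGroup K] [InnerProductSpace ℂ K]
    (L R : (H →L[ℂ] H) → K →L[ℂ] K) (δ : (H →L[ℂ] H) → K) : Prop :=
  ∀ x ∈ A, ∀ y ∈ A, δ (x + y) = δ x + δ y ∧ (∀ c : ℂ, δ (c • x) = c • δ x) ∧
    δ (x * y) = L x (δ y) + R y (δ x)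

/-- For every `P`-bimodule structure on `K`, every derivation from `A` to `K` is inner. -/
def DerInnerOn (P : VonNeumannAlgebra H) (A : Set (H →L[ℂ] H)) (K : Type v)
    [NormedAddCommGroup K] [InnerProductSpace ℂ K] [CompleteSpace K] : Prop :=
  ∀ (L R : (H →L[ℂ] H) → K →L[ℂ] K) (δ : (H →L[ℂ] H) → K), IsAlgBimodule P L R →
    IsDerOn A L R δ → ∃ ξ : K, ∀ x ∈ A, δ x = L x ξ - R x ξ

/-- The unital star subalgebra generated by a finite set of operators. -/
def genAlg (F : Finset (H →L[ℂ] H)) : Set (H →L[ℂ] H) :=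
  StarAlgebra.adjoin ℂ (F : Set (H →L[ℂ] H))

/-- `P` is the bicommutant of a finitely generated star subalgebra `A`, and every derivation from
`A` into a Hilbert `P`-bimodule is inner. -/
def RigidlyGenerated (P : VonNeumannAlgebra H) : Prop :=
  ∃ F : Finset (H →L[ℂ] H),
    (P : Set (H →L[ℂ] H)) = Set.centralizer (Set.centralizer (genAlg F)) ∧
    ∀ (K : Type v) [NormedAddCommGroup K] [InnerProductSpace ℂ K] [CompleteSpace K],
      DerInnerOn P (genAlg F) K

/-- `M` is the sum of the spaces `V i * P V j` for finitely many operators `V i` from `H` to `H'`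
with `∑ V i (V i)* = 1`. -/
def Commensurable (P : VonNeumannAlgebra H') (M : VonNeumannAlgebra H) : Prop :=
  ∃ (k : ℕ) (V : Fin k → H →L[ℂ] H'), ∑ i, V i ∘L (V i).adjoint = 1 ∧
    ∀ m : H →L[ℂ] H, m ∈ M ↔ ∃ a : Fin k → Fin k → H' →L[ℂ] H', (∀ i j, a i j ∈ P) ∧
      m = ∑ i, ∑ j, (V i).adjoint ∘L a i j ∘L V j

end Pool.Agent.MP_890ef7_an
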